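import Pool.Agent.NNI.Crit
import Pool.Agent.NNI.RP3
import Pool.Agent.NNI.PAdic
import Pool.Agent.NNO.Final
import Pool.Agent.NNO.CharZ
import Pool.Agent.NFF.FunctionFields
import Pool.Agent.NRC.Main

set_option autoImplicit false

open Polynomial FirstOrder FirstOrder.Language FirstOrder.Ring

universe u

/-- Let `K` be a field, `L` a finite extension of `K` and `ℓ` a prime different from the
characteristic. Suppose that one of the following holds.
* `L` has infinitely many real places (valuation rings `V` with a local homomorphism `V → ℝ`).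
* `L` has infinitely many formally `p`-adic valuation rings (valuation rings `V` such that `V / pV`
  is finite for a prime `p`, not zero in `L` and not a unit of `V`, which may depend on `V`).
* `L` has infinitely many discrete valuation rings whose residue field has an element which is no
  `ℓ`-th power.
* `L` has an infinite set `S` of valuation rings, none containing another, such that for every `V`
  in `S` there are `x`, `y`, `r` in `L` such that no `f` in `x + r m` is a norm from
  `L[X]/(X ^ ℓ - b)` for any `b` in `y + r m`, `m` the maximal ideal of `V`, and `ℓ`, `x`, `y`, `r`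
  are units of the valuation ring generated by `V` and `W` for all other `W` in `S`.
* `L` contains a noetherian ring `A` of dimension at least `2`, `L` is algebraic over the field of
  fractions `E` of `A` and, for some `k`, no finite extension of `E` in `L` has a degree divisible
  by `ℓ ^ k`.
* `L` is generated by a subfield `F` and finitely many elements, not all of them are algebraic over
  `F`, and it is not the case that `L` has characteristic `0`, is finite over `F(u)` for some
  transcendental `u`, and `F` is algebraically closed or its algebraic closure has degree `2` over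
  `F` and `-1` is a sum of squares in `L`.

Then some formula has the independence property in `K`. -/
theorem Pool.Agent.Results.MP_3554b5_lc.ManyPlaces.result
    (K : Type u) [Field K] [CompatibleRing K] (L : Type u) [Field L] [Algebra K L]
    [FiniteDimensional K L] (ℓ : ℕ) (hℓ : ℓ.Prime) (hℓK : (ℓ : K) ≠ 0)
    (h :
      Infinite {p : Σ V : ValuationSubring L, V →+* ℝ // IsLocalHom p.2} ∨
      {V : ValuationSubring L | ∃ p : ℕ, p.Prime ∧ (p : L) ≠ 0 ∧ V.valuation (p : L) < 1 ∧
        Finite (V ⧸ Ideal.span {(p : V)})}.Infinite ∨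
      {V : ValuationSubring L | IsDiscreteValuationRing V ∧
        ∃ a : IsLocalRing.ResidueField V, ∀ c, c ^ ℓ ≠ a}.Infinite ∨
      (∃ S : Set (ValuationSubring L), S.Infinite ∧
        (∀ V ∈ S, ∀ W ∈ S, V ≠ W → ¬ V ≤ W ∧ (V ⊔ W).valuation (ℓ : L) = 1) ∧
        ∀ V ∈ S, ∃ x y r : L,
          (∀ W ∈ S, V ≠ W → (V ⊔ W).valuation x = 1 ∧ (V ⊔ W).valuation y = 1 ∧
            (V ⊔ W).valuation r = 1) ∧
          ∀ f b : L, V.valuation (f - x) < V.valuation r → V.valuation (b - y) < V.valuation r →
            ∀ z : AdjoinRoot (X ^ ℓ - C b), Algebra.norm L z ≠ f) ∨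
      (∃ (A : Subring L) (k : ℕ), IsNoetherianRing A ∧ 2 ≤ ringKrullDim A ∧
        Algebra.IsAlgebraic (Subfield.closure (A : Set L)) L ∧
        ∀ M : IntermediateField (Subfield.closure (A : Set L)) L,
          FiniteDimensional (Subfield.closure (A : Set L)) M →
            ¬ ℓ ^ k ∣ Module.finrank (Subfield.closure (A : Set L)) M) ∨
      (∃ (F : Subfield L) (S : Finset L),
        Subfield.closure ((F : Set L) ∪ (S : Set L)) = ⊤ ∧ (∃ x : L, Transcendental F x) ∧
        ¬ (CharZero L ∧
          (∃ u : L, Transcendental F u ∧ FiniteDimensional (IntermediateField.adjoin F {u}) L) ∧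
          (IsAlgClosed F ∨
            (Module.finrank F (AlgebraicClosure F) = 2 ∧ IsSumSq (-1 : L)))))) :
    ∃ (m k : ℕ) (φ : Language.ring.Formula (Fin m ⊕ Fin k)), ∀ n : ℕ,
      ∃ (a : Fin n → Fin m → K) (b : Finset (Fin n) → Fin k → K),
        ∀ (i : Fin n) (J : Finset (Fin n)), φ.Realize (Sum.elim (a i) (b J)) ↔ i ∈ J := by
  by_contra hcon
  push Not at hcon
  have hK : ∀ (m k : ℕ) (φ : Language.ring.Formula (Fin m ⊕ Fin k)),
      ∃ n : ℕ, ∀ (a : Fin n → Fin m → K) (b : Finset (Fin n) → Fin k → K),
        ∃ (i : Fin n) (J : Finset (Fin n)),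
          ¬ (φ.Realize (Sum.elim (a i) (b J)) ↔ i ∈ J) := by
    intro m k φ
    obtain ⟨n, hn⟩ := hcon m k φ
    refine ⟨n, fun a b => ?_⟩
    obtain ⟨i, J, hiJ⟩ := hn a b
    refine ⟨i, J, fun h1 => ?_⟩
    rcases hiJ with h2 | h2
    · exact h2.2 (h1.1 h2.1)
    · exact h2.1 (h1.2 h2.2)
  let _ : CompatibleRing L := compatibleRingOfRing L
  have hL : Pool.Agent.NIPFields.NIP L :=
    Pool.Agent.NIPFields.NIP.finite (K := K) hK (Module.finBasis K L)
  have hℓL : (ℓ : L) ≠ 0 := by
    intro h
    apply hℓK
    apply (algebraMap K L).injective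
    rw [map_natCast, h, map_zero]
  rcases h with h | h | h | ⟨S, hS, h1, h2⟩ | ⟨A, k, hA, hdim, halg, hk⟩ | ⟨F, S, hS, hx, hneg⟩
  · have := Pool.Agent.NNI.finite_realPlaces hL
    exact not_finite {p : Σ V : ValuationSubring L, V →+* ℝ // IsLocalHom p.2}
  · exact h (Pool.Agent.NNI.finite_pAdic hL)
  · exact h (Pool.Agent.NNI.finite_dvr hL hℓ hℓL)
  · have : NeZero ℓ := ⟨hℓ.ne_zero⟩
    refine hS (Pool.Agent.NNI.finite_of_box hL hℓ hℓL S h1 fun V hV => ?_)
    obtain ⟨x, y, r, hW, hbox⟩ := h2 V hV
    obtain ⟨W, hWS, hWV⟩ := hS.nontrivial.exists_ne V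
    have hne : ∀ t : L, (V ⊔ W).valuation t = 1 → t ≠ 0 := by
      rintro t ht rfl
      rw [map_zero] at ht
      exact zero_ne_one ht
    have h3 := hW W hWS hWV.symm
    refine ⟨x, y, r, hne x h3.1, hne y h3.2.1, hne r h3.2.2, hW, fun f b hf hb => ?_⟩
    rw [← Pool.Agent.NIPFields.NSR_eq_NS, Pool.Agent.NIPFields.mem_NSR_iff_adj]
    rintro ⟨z, hz⟩
    exact hbox f b hf hb z hz
  · have h3 : ringKrullDim A ≤ 1 := not_lt.1 (Pool.Agent.NNO.no_dim_two (K := K) hK A hℓ hℓK hk)
    have h4 : (2 : WithBot ℕ∞) ≤ 1 := hdim.trans h3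
    exact absurd h4 (by decide)
  · apply hneg
    have h0 : CharZero L := Pool.Agent.NNO.charZero_of_fg hL F S hS hx
    have hF0 : CharZero F := (algebraMap F L).charZero
    obtain ⟨⟨u, hu, hfd⟩, h1⟩ := Pool.Agent.NFF.function_fields L hL F S hS hx
    refine ⟨h0, ⟨u, hu, hfd⟩, h1.imp_right fun h2 => ⟨h2, ?_⟩⟩
    exact Pool.Agent.NRC.isSumSq_neg_one (F := F) hL u hu h2
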